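import Pool.Agent.Run7.h496.PS.Div

/-! Linear equations in three primes with one large coefficient: the exceptional coefficients. -/

set_option autoImplicit false

namespace Pool.Agent.Run7.h496.BK

open Finset
open Pool.Agent.Run7.h496.PS (Sparse Thin)
open Pool.Agent.Y883.T5 (Admissible)

/-- ALL the admissible equations `a p + b q + c r = d` with `|c| = n` and `|a|, |b| ≤ (log n) ^ T` (`d` is arbitrary) have a
solution in primes with `max (p, q, r) ≤ 3 |d| + n ^ θ`. -/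
def Solvable (θ : ℝ) (T n : ℕ) : Prop := ∀ a b c d : ℤ, Admissible a b c d → c.natAbs = n →
  |(a : ℝ)| ≤ Real.log n ^ T → |(b : ℝ)| ≤ Real.log n ^ T →
    ∃ p q r : ℕ, p.Prime ∧ q.Prime ∧ r.Prime ∧ a * p + b * q + c * r = d ∧
      ((max p (max q r) : ℕ) : ℝ) ≤ 3 * |(d : ℝ)| + (n : ℝ) ^ θ

theorem base : ∃ D : Set ℕ, Thin D ∧ ∀ θ : ℝ, 1 < θ → ∀ η : ℝ, 0 < η → ∀ T T' : ℕ, T ≤ T' →
    ∃ E : ℕ → Prop, (3 / 2 < θ → Sparse 0 E) ∧ (θ ≤ 3 / 2 → Sparse (2 - θ + η) E) ∧
      ∀ n : ℕ, ¬ E n → (∀ e ∈ D, Real.log (n : ℝ) ^ T' < (e : ℝ) → ¬ e ∣ n) → Solvable θ T n := by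
  classical
  obtain ⟨D, h1, h2, h3⟩ := Pool.Agent.Y883.T6.one6
  refine ⟨D, ⟨fun X hX => by convert h1 X hX, fun ε hε => ?_⟩, fun θ hθ η hη T T' hT => ?_⟩
  · obtain ⟨X₀, h⟩ := h2 ε hε
    exact ⟨X₀, fun X hX => by convert h X hX⟩
  obtain ⟨c₀, F, hF1, hF2, hF3⟩ := h3 θ hθ η hη T'
  obtain ⟨M, hM⟩ : ∃ M, M = c₀ + 3 := ⟨_, rfl⟩
  refine ⟨fun n => n ∈ F ∨ n < M, fun h => ?_, fun h => ?_, fun n hn hdiv => ?_⟩
  · refine ⟨M, by rw [hM]; positivity, fun X _ => ?_⟩
    rw [Real.rpow_zero, mul_one]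
    apply Nat.cast_le.2
    refine le_trans (card_le_card (t := range M) ?_) (card_range M).le
    intro n hn'
    have hn := (@mem_filter ℕ _ (_) _ _).1 hn'
    rw [mem_range]
    rcases hn.2 with h4 | h4
    · rw [hF2 h] at h4
      exact absurd h4 (Set.notMem_empty n)
    · exact h4
  · refine ⟨M + 1, by positivity, fun X hX => ?_⟩
    have hX1 : (1 : ℝ) ≤ X := by exact_mod_cast hX
    have hXp : 1 ≤ (X : ℝ) ^ (2 - θ + η) := Real.one_le_rpow hX1 (by linarith)
    rcases lt_or_ge X c₀ with h4 | h4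
    · have h5 : (((Icc 1 X).filter (fun n => n ∈ F ∨ n < M)).card : ℝ) ≤ M := by
        have h6 := card_filter_le (Icc 1 X) (fun n => n ∈ F ∨ n < M)
        rw [Nat.card_Icc, Nat.add_sub_cancel] at h6
        exact_mod_cast h6.trans (by omega)
      have h7 : (M : ℝ) * 1 ≤ M * (X : ℝ) ^ (2 - θ + η) := mul_le_mul_of_nonneg_left hXp (Nat.cast_nonneg _)
      have h8 : (((Icc 1 X).filter (fun n => n ∈ F ∨ n < M)).card : ℝ) ≤ (M + 1) * (X : ℝ) ^ (2 - θ + η) := by
        linarith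
      convert h8
    · have h5 : (((Icc 1 X).filter (fun n => n ∈ F ∨ n < M)).card : ℝ) ≤
          (((Icc 1 X).filter (fun n => n ∈ F)).card : ℝ) + M := by
        have h6 : (Icc 1 X).filter (fun n => n ∈ F ∨ n < M) ⊆ (Icc 1 X).filter (fun n => n ∈ F) ∪ range M := by
          intro n hn
          rw [mem_filter] at hn
          rw [mem_union, mem_filter, mem_range]
          rcases hn.2 with h7 | h7
          · exact Or.inl ⟨hn.1, h7⟩
          · exact Or.inr h7
        have h7 := (card_le_card h6).trans (card_union_le _ _)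
        rw [card_range] at h7
        exact_mod_cast h7
      have h6 := hF1 X h4
      have h7 : (M : ℝ) * 1 ≤ M * (X : ℝ) ^ (2 - θ + η) := mul_le_mul_of_nonneg_left hXp (Nat.cast_nonneg _)
      have h8 : (((Icc 1 X).filter (fun n => n ∈ F ∨ n < M)).card : ℝ) ≤ (M + 1) * (X : ℝ) ^ (2 - θ + η) := by
        have h9 : (((Icc 1 X).filter (fun n => n ∈ F)).card : ℝ) ≤ (X : ℝ) ^ (2 - θ + η) := by convert h6
        linarith
      convert h8
  · push Not at hn
    obtain ⟨hnF, hnM⟩ := hn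
    intro a b c d hadm hcn ha hb
    have hnr : |(c : ℝ)| = (n : ℝ) := by
      rw [← hcn, Nat.cast_natAbs]
      push_cast
      rfl
    have hn3 : (3 : ℝ) ≤ n := by exact_mod_cast (by omega : 3 ≤ n)
    have hlog : 1 ≤ Real.log n := by
      rw [Real.le_log_iff_exp_le (by linarith)]
      have := Real.exp_one_lt_d9
      linarith
    have hTT : Real.log n ^ T ≤ Real.log n ^ T' := pow_le_pow_right₀ hlog hT
    obtain ⟨p, q, r, s1, s2, s3, s4, s5⟩ := hF3 a b c d hadm (by rw [hcn]; omega) (by rw [hcn]; exact hnF) (by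
      intro e he heL hdvd
      rw [Int.natCast_dvd, hcn] at hdvd
      rw [hnr] at heL
      exact hdiv e he heL hdvd) (by rw [hnr]; exact ha.trans hTT) (by rw [hnr]; exact hb.trans hTT)
    refine ⟨p, q, r, s1, s2, s3, s4, ?_⟩
    rw [hnr] at s5
    exact s5

end Pool.Agent.Run7.h496.BK
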