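import Pool.Agent.Run7.h496.BK.RecDiv
import Pool.Agent.Run7.h496.BK.Base

/-! Linear equations in three primes: the coefficients along linear recurrences. -/

set_option autoImplicit false

namespace Pool.Agent.Run7.h496.BK

open Finset
open Pool.Agent.Run7.h496.PS (Sparse Thin rec_div recurrences)
open Pool.Agent.Y883.T3 (ev_log_rpow)
open _root_.Run7.h469.LF (seq)

open Classical in
/-- **Coefficients along recurrences.** -/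
theorem recs {s t : ℕ} (hs : 1 ≤ s) (ht : 1 ≤ t) (hst : Nat.Coprime s t) (θ κ : ℝ) (hθ : 1 < θ)
    (hκ0 : 0 ≤ κ) (hκ : 3 / 2 < θ ∨ κ * (2 - θ) < 2) (A T U : ℕ) :
    ∃ X₀ : ℕ, ∀ X : ℕ, X₀ ≤ X →
      (((Icc 1 X ×ˢ Icc 1 X).filter (fun z : ℕ × ℕ => ∃ n u : ℕ, (seq s t z.1 z.2 n : ℝ) ≤ (X : ℝ) ^ κ ∧ 1 ≤ u ∧
        (u : ℝ) ≤ Real.log X ^ U ∧ ¬ Solvable θ T (u * seq s t z.1 z.2 n))).card : ℝ) ≤
        (X : ℝ) ^ 2 / Real.log X ^ A := by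
  obtain ⟨D, hD, hbase⟩ := base
  obtain ⟨T₀, hT₀⟩ := rec_div hD hs ht hst κ hκ0 (A + 1) U
  obtain ⟨X₁, hX₁⟩ := hT₀ (max T T₀) (le_max_right _ _)
  obtain ⟨ϑ, E, hϑ0, hϑ1, hβ1, hE, hsol⟩ : ∃ (ϑ : ℝ) (E : ℕ → Prop), 0 ≤ ϑ ∧ ϑ < 1 ∧
      max (1 + ϑ) (κ * ϑ) < 2 ∧ Sparse ϑ E ∧
      ∀ n : ℕ, ¬ E n → (∀ e ∈ D, Real.log (n : ℝ) ^ (max T T₀) < (e : ℝ) → ¬ e ∣ n) → Solvable θ T n := by
    rcases lt_or_ge (3 / 2) θ with h | h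
    · obtain ⟨E, h1, -, h3⟩ := hbase θ hθ 1 one_pos T (max T T₀) (le_max_left _ _)
      exact ⟨0, E, le_rfl, by norm_num, by norm_num, h1 h, h3⟩
    · have hκ' : κ * (2 - θ) < 2 := by
        rcases hκ with h1 | h1
        · exact absurd h1 (not_lt.2 h)
        · exact h1
      obtain ⟨η, hη⟩ : ∃ η : ℝ, η = min ((θ - 1) / 2) ((2 - κ * (2 - θ)) / (2 * (κ + 1))) := ⟨_, rfl⟩
      have hη0 : 0 < η := by
        rw [hη]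
        exact lt_min (by linarith) (div_pos (by linarith) (by linarith))
      have hη1 : η ≤ (θ - 1) / 2 := by rw [hη]; exact min_le_left _ _
      have hη2 : η * (2 * (κ + 1)) ≤ 2 - κ * (2 - θ) := by
        rw [← le_div_iff₀ (by linarith), hη]
        exact min_le_right _ _
      obtain ⟨E, -, h2, h3⟩ := hbase θ hθ η hη0 T (max T T₀) (le_max_left _ _)
      refine ⟨2 - θ + η, E, by linarith, by linarith, max_lt (by linarith) ?_, h2 h, h3⟩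
      nlinarith
  obtain ⟨β, hβ⟩ : ∃ β, β = max (1 + ϑ) (κ * ϑ) := ⟨_, rfl⟩
  rw [← hβ] at hβ1
  obtain ⟨η', hη', X₂, hX₂⟩ := recurrences hs ht hst ϑ κ ((2 - β) / 2) hϑ0 hϑ1 hκ0 (by linarith) hE
  rw [← hβ] at hX₂
  obtain ⟨X₃, hX₃⟩ := ev_log_rpow U 1 η' hη'
  obtain ⟨X₄, hX₄⟩ := ev_log_rpow (A + 1) 1 ((2 - β) / 2) (by linarith)
  obtain ⟨X₅, hX₅⟩ := exists_nat_ge (Real.exp 2)
  refine ⟨X₁ + X₂ + X₃ + X₄ + X₅ + 1, fun X hX => ?_⟩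
  have hX1 : 1 ≤ X := by omega
  have hX0 : (0 : ℝ) < X := by exact_mod_cast hX1
  obtain ⟨L, hL⟩ : ∃ L, L = Real.log X := ⟨_, rfl⟩
  have hL2 : 2 ≤ L := by
    rw [hL, Real.le_log_iff_exp_le hX0]
    exact hX₅.trans (by exact_mod_cast (by omega : X₅ ≤ X))
  have hL0 : 0 < L := by linarith
  have h1 := hX₁ X (by omega)
  have h2 := hX₂ X (by omega)
  have h3 := hX₃ X (by omega)
  have h4 := hX₄ X (by omega)
  rw [one_mul] at h3 h4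
  rw [← hL] at h1 h3 h4 ⊢
  have hsub : (Icc 1 X ×ˢ Icc 1 X).filter (fun z : ℕ × ℕ => ∃ n u : ℕ, (seq s t z.1 z.2 n : ℝ) ≤ (X : ℝ) ^ κ ∧ 1 ≤ u ∧
        (u : ℝ) ≤ L ^ U ∧ ¬ Solvable θ T (u * seq s t z.1 z.2 n)) ⊆
      (Icc 1 X ×ˢ Icc 1 X).filter (fun z : ℕ × ℕ => ∃ (n u N : ℕ) (w : ℤ),
        (seq s t z.1 z.2 n : ℝ) ≤ (X : ℝ) ^ κ ∧ 1 ≤ u ∧ (u : ℝ) ≤ (X : ℝ) ^ η' ∧ |(w : ℝ)| ≤ (X : ℝ) ^ η' ∧
        1 ≤ N ∧ (N : ℤ) = u * (seq s t z.1 z.2 n : ℕ) + w ∧ E N) ∪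
      (Icc 1 X ×ˢ Icc 1 X).filter (fun z : ℕ × ℕ => ∃ n u : ℕ, (seq s t z.1 z.2 n : ℝ) ≤ (X : ℝ) ^ κ ∧ 1 ≤ u ∧
        (u : ℝ) ≤ L ^ U ∧
        ∃ e ∈ D, Real.log ((u * seq s t z.1 z.2 n : ℕ) : ℝ) ^ (max T T₀) < (e : ℝ) ∧
          e ∣ u * seq s t z.1 z.2 n) := by
    intro z hz
    rw [mem_filter] at hz
    obtain ⟨hz1, n, u, hk, hu1, hu2, hns⟩ := hz
    rw [mem_union, mem_filter, mem_filter]
    by_cases hEm : E (u * seq s t z.1 z.2 n)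
    · left
      have hz1' := hz1
      rw [mem_product, mem_Icc, mem_Icc] at hz1'
      have hp := (Pool.Agent.Run7.h496.PS.seq_lower (t := t) hs 1 z.1 z.2 hz1'.1.1 hz1'.2.1 n).1
      refine ⟨hz1, n, u, u * seq s t z.1 z.2 n, 0, hk, hu1, hu2.trans h3, ?_, Nat.mul_pos hu1 hp, ?_, hEm⟩
      · simp
        positivity
      · push_cast
        ring
    · right
      refine ⟨hz1, n, u, hk, hu1, hu2, ?_⟩
      by_contra hcon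
      push Not at hcon
      exact hns (hsol _ hEm hcon)
  have hcard : (((Icc 1 X ×ˢ Icc 1 X).filter (fun z : ℕ × ℕ => ∃ n u : ℕ, (seq s t z.1 z.2 n : ℝ) ≤ (X : ℝ) ^ κ ∧ 1 ≤ u ∧
        (u : ℝ) ≤ L ^ U ∧ ¬ Solvable θ T (u * seq s t z.1 z.2 n))).card : ℝ) ≤
        (X : ℝ) ^ (β + (2 - β) / 2) + (X : ℝ) ^ 2 / L ^ (A + 1) := by
    refine le_trans ?_ (add_le_add h2 h1)
    exact_mod_cast (card_le_card hsub).trans (card_union_le _ _)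
  refine hcard.trans ?_
  have hLA : 0 < L ^ (A + 1) := by positivity
  have h5 : (X : ℝ) ^ (β + (2 - β) / 2) ≤ (X : ℝ) ^ 2 / L ^ (A + 1) := by
    rw [le_div_iff₀ hLA]
    calc (X : ℝ) ^ (β + (2 - β) / 2) * L ^ (A + 1) ≤ (X : ℝ) ^ (β + (2 - β) / 2) * (X : ℝ) ^ ((2 - β) / 2) :=
          mul_le_mul_of_nonneg_left h4 (by positivity)
      _ = (X : ℝ) ^ (2 : ℝ) := by
          rw [← Real.rpow_add hX0]
          congr 1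
          ring
      _ = (X : ℝ) ^ 2 := Real.rpow_two _
  have h6 : (X : ℝ) ^ 2 / L ^ A = L * ((X : ℝ) ^ 2 / L ^ (A + 1)) := by
    rw [pow_succ L A]
    field_simp
  rw [h6]
  have h7 : 0 ≤ (X : ℝ) ^ 2 / L ^ (A + 1) := by positivity
  nlinarith

end Pool.Agent.Run7.h496.BK
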