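import Pool.Agent.Run7.h496.PS.Div
import Pool.Agent.Run7.h496.PS.Rec

/-! Linear recurrences: large divisors in a thin set are rare, for all members at once. -/

set_option autoImplicit false

namespace Pool.Agent.Run7.h496.PS

open Finset
open _root_.Run7.h469.CT (class_le)
open _root_.Run7.h469.LF (seq seq_lin coprime_coeff index_le)
open Pool.Agent.Y883.T3 (ev_log_rpow)

/-- the pairs with a value of a linear form divisible by `e` -/
theorem form_div (α β X e : ℕ) (hco : Nat.Coprime α β) (he : 1 ≤ e) :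
    (((Icc 1 X ×ˢ Icc 1 X).filter (fun z : ℕ × ℕ => e ∣ α * z.1 + β * z.2)).card : ℝ) ≤ (X : ℝ) ^ 2 / e + X := by
  obtain ⟨g, hg⟩ : ∃ g, g = Nat.gcd e α := ⟨_, rfl⟩
  have hg0 : 0 < g := by rw [hg]; exact Nat.gcd_pos_of_pos_left _ he
  have hge : g ∣ e := by rw [hg]; exact Nat.gcd_dvd_left _ _
  have hgα : g ∣ α := by rw [hg]; exact Nat.gcd_dvd_right _ _
  obtain ⟨e', he'⟩ := hge
  have he'0 : 0 < e' := Nat.pos_of_ne_zero (fun h => by rw [h] at he'; omega)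
  have hdiv : e / g = e' := by rw [he', Nat.mul_div_cancel_left _ hg0]
  have hmap : ∀ z ∈ (Icc 1 X ×ˢ Icc 1 X).filter (fun z : ℕ × ℕ => e ∣ α * z.1 + β * z.2),
      z.2 ∈ (Icc 1 X).filter (fun b => g ∣ b) := by
    intro z hz
    rw [mem_filter, mem_product] at hz
    rw [mem_filter]
    refine ⟨hz.1.2, ?_⟩
    have h1 : g ∣ α * z.1 + β * z.2 := (Dvd.intro _ he'.symm : g ∣ e).trans hz.2
    have h2 : g ∣ β * z.2 := (Nat.dvd_add_right (hgα.mul_right _)).1 h1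
    have h3 : Nat.Coprime g β := Nat.Coprime.coprime_dvd_left hgα hco
    exact h3.dvd_of_dvd_mul_left h2
  rw [card_eq_sum_card_fiberwise hmap, Nat.cast_sum]
  have hterm : ∀ b ∈ (Icc 1 X).filter (fun b => g ∣ b),
      ((((Icc 1 X ×ˢ Icc 1 X).filter (fun z : ℕ × ℕ => e ∣ α * z.1 + β * z.2)).filter
        (fun z => z.2 = b)).card : ℝ) ≤ (X : ℝ) / e' + 1 := by
    intro b _
    have h1 : (((Icc 1 X ×ˢ Icc 1 X).filter (fun z : ℕ × ℕ => e ∣ α * z.1 + β * z.2)).filter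
        (fun z => z.2 = b)).card ≤ X / e' + 1 := by
      rcases (((Icc 1 X ×ˢ Icc 1 X).filter (fun z : ℕ × ℕ => e ∣ α * z.1 + β * z.2)).filter
        (fun z => z.2 = b)).eq_empty_or_nonempty with h | h
      · rw [h]; simp
      obtain ⟨z₀, hz₀⟩ := h
      rw [mem_filter, mem_filter, mem_product] at hz₀
      refine le_trans ?_ (class_le X e' (z₀.1 % e'))
      apply card_le_card_of_injOn (fun z => z.1)
      · intro z hz
        rw [mem_coe, mem_filter, mem_filter, mem_product] at hz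
        rw [mem_coe, mem_filter]
        refine ⟨hz.1.1.1, ?_⟩
        have h2 : α * z.1 + β * b ≡ α * z₀.1 + β * b [MOD e] := by
          have h3 := hz.1.2
          have h4 := hz₀.1.2
          rw [hz.2] at h3
          rw [hz₀.2] at h4
          exact (Nat.modEq_zero_iff_dvd.2 h3).trans (Nat.modEq_zero_iff_dvd.2 h4).symm
        have h5 : α * z.1 ≡ α * z₀.1 [MOD e] := Nat.ModEq.add_right_cancel' _ h2
        have h6 : z.1 ≡ z₀.1 [MOD e / Nat.gcd e α] := Nat.ModEq.cancel_left_div_gcd he h5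
        rw [← hg, hdiv] at h6
        exact h6
      · intro z hz z' hz' h
        rw [mem_coe, mem_filter] at hz hz'
        exact Prod.ext h (by rw [hz.2, hz'.2])
    have h2 : ((X / e' + 1 : ℕ) : ℝ) ≤ (X : ℝ) / e' + 1 := by
      push_cast
      have := Nat.cast_div_le (α := ℝ) (m := X) (n := e')
      linarith
    exact (by exact_mod_cast h1 : _ ≤ ((X / e' + 1 : ℕ) : ℝ)).trans h2
  refine (sum_le_sum hterm).trans ?_
  rw [sum_const, nsmul_eq_mul]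
  have hgr : (0 : ℝ) < g := by exact_mod_cast hg0
  have he'r : (0 : ℝ) < e' := by exact_mod_cast he'0
  have h3 : ((((Icc 1 X).filter (fun b => g ∣ b)).card : ℕ) : ℝ) ≤ (X : ℝ) / g :=
    Pool.Agent.Y883.T6.multc_card X g
  have hXr : (0 : ℝ) ≤ X := Nat.cast_nonneg _
  calc ((((Icc 1 X).filter (fun b => g ∣ b)).card : ℕ) : ℝ) * ((X : ℝ) / e' + 1) ≤
        (X : ℝ) / g * ((X : ℝ) / e' + 1) := mul_le_mul_of_nonneg_right h3 (by positivity)
    _ = (X : ℝ) ^ 2 / e + X / g := by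
        rw [he']
        push_cast
        field_simp
    _ ≤ (X : ℝ) ^ 2 / e + X := by
        have : (X : ℝ) / g ≤ X := div_le_self hXr (by exact_mod_cast hg0)
        linarith

theorem form_div_u (α β X e u : ℕ) (hco : Nat.Coprime α β) (he : 1 ≤ e) (hu : 1 ≤ u) :
    (((Icc 1 X ×ˢ Icc 1 X).filter (fun z : ℕ × ℕ => e ∣ u * (α * z.1 + β * z.2))).card : ℝ) ≤
      u * ((X : ℝ) ^ 2 / e) + X := by
  obtain ⟨g, hg⟩ : ∃ g, g = Nat.gcd e u := ⟨_, rfl⟩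
  have hg0 : 0 < g := by rw [hg]; exact Nat.gcd_pos_of_pos_left _ he
  obtain ⟨e', he'⟩ : ∃ e', e = g * e' := by
    obtain ⟨e', h⟩ : g ∣ e := by rw [hg]; exact Nat.gcd_dvd_left _ _
    exact ⟨e', h⟩
  have he'0 : 0 < e' := Nat.pos_of_ne_zero (fun h => by rw [h] at he'; omega)
  have hgu : g ≤ u := by rw [hg]; exact Nat.le_of_dvd hu (Nat.gcd_dvd_right _ _)
  have hdiv : ∀ n : ℕ, e ∣ u * n → e' ∣ n := by
    intro n hn
    have h1 : e / g ∣ u / g * n := by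
      obtain ⟨u', hu'⟩ : g ∣ u := by rw [hg]; exact Nat.gcd_dvd_right _ _
      rw [he', hu', Nat.mul_div_cancel_left _ hg0, Nat.mul_div_cancel_left _ hg0]
      rw [he', hu', mul_assoc] at hn
      exact Nat.dvd_of_mul_dvd_mul_left hg0 hn
    have h2 : Nat.Coprime (e / g) (u / g) := by
      rw [hg]
      exact Nat.coprime_div_gcd_div_gcd (by rw [← hg]; exact hg0)
    have h3 := h2.dvd_of_dvd_mul_left h1
    rwa [he', Nat.mul_div_cancel_left _ hg0] at h3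
  have h1 : (((Icc 1 X ×ˢ Icc 1 X).filter (fun z : ℕ × ℕ => e ∣ u * (α * z.1 + β * z.2))).card : ℝ) ≤
      (((Icc 1 X ×ˢ Icc 1 X).filter (fun z : ℕ × ℕ => e' ∣ α * z.1 + β * z.2)).card : ℝ) := by
    apply Nat.cast_le.2
    apply card_le_card
    intro z hz
    rw [mem_filter] at hz ⊢
    exact ⟨hz.1, hdiv _ hz.2⟩
  refine h1.trans ((form_div α β X e' hco he'0).trans ?_)
  have hgr : (0 : ℝ) < g := by exact_mod_cast hg0
  have he'r : (0 : ℝ) < e' := by exact_mod_cast he'0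
  have h4 : (X : ℝ) ^ 2 / e' = g * ((X : ℝ) ^ 2 / e) := by
    rw [he']
    push_cast
    field_simp
  rw [h4]
  have h5 : (g : ℝ) * ((X : ℝ) ^ 2 / e) ≤ u * ((X : ℝ) ^ 2 / e) :=
    mul_le_mul_of_nonneg_right (by exact_mod_cast hgu) (by positivity)
  linarith

variable {s t : ℕ}

theorem seq_upper (hs : 1 ≤ s) (ht : 1 ≤ t) (M a b : ℕ) (ha : a ≤ M) (hb : b ≤ M) :
    ∀ n, seq s t a b n ≤ (s + t) ^ n * M ∧ seq s t a b (n + 1) ≤ (s + t) ^ (n + 1) * M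
  | 0 => by
    refine ⟨by simpa [seq] using ha, ?_⟩
    simp only [seq, zero_add, pow_one]
    exact hb.trans (Nat.le_mul_of_pos_left _ (by omega))
  | n + 1 => by
    obtain ⟨h1, h2⟩ := seq_upper hs ht M a b ha hb n
    refine ⟨h2, ?_⟩
    have e : seq s t a b (n + 1 + 1) = s * seq s t a b (n + 1) + t * seq s t a b n := by rw [seq]
    rw [e]
    have h3 : (s + t) ^ n ≤ (s + t) ^ (n + 1) := Nat.pow_le_pow_right (by omega) (by omega)
    calc s * seq s t a b (n + 1) + t * seq s t a b n ≤ s * ((s + t) ^ (n + 1) * M) + t * ((s + t) ^ (n + 1) * M) :=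
          Nat.add_le_add (Nat.mul_le_mul_left _ h2) (Nat.mul_le_mul_left _ (h1.trans (Nat.mul_le_mul_right _ h3)))
      _ = (s + t) ^ (n + 1 + 1) * M := by rw [pow_succ (s + t) (n + 1)]; ring

theorem seq_lower (hs : 1 ≤ s) (M a b : ℕ) (ha : M ≤ a) (hb : M ≤ b) :
    ∀ n, M ≤ seq s t a b n ∧ M ≤ seq s t a b (n + 1)
  | 0 => by
    refine ⟨by simpa [seq] using ha, by simpa [seq] using hb⟩
  | n + 1 => by
    obtain ⟨h1, h2⟩ := seq_lower hs M a b ha hb n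
    refine ⟨h2, ?_⟩
    have e : seq s t a b (n + 1 + 1) = s * seq s t a b (n + 1) + t * seq s t a b n := by rw [seq]
    rw [e]
    calc M ≤ seq s t a b (n + 1) := h2
      _ ≤ s * seq s t a b (n + 1) := Nat.le_mul_of_pos_left _ hs
      _ ≤ _ := Nat.le_add_right _ _

open Classical in
/-- **Recurrences and multiples of the members of a thin set.** -/
theorem rec_div {D : Set ℕ} (hD : Thin D) (hs : 1 ≤ s) (ht : 1 ≤ t) (hst : Nat.Coprime s t) (κ : ℝ)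
    (hκ0 : 0 ≤ κ) (A U : ℕ) : ∃ T₀ : ℕ, ∀ T : ℕ, T₀ ≤ T → ∃ X₀ : ℕ, ∀ X : ℕ, X₀ ≤ X →
      (((Icc 1 X ×ˢ Icc 1 X).filter (fun z : ℕ × ℕ => ∃ n u : ℕ, (seq s t z.1 z.2 n : ℝ) ≤ (X : ℝ) ^ κ ∧ 1 ≤ u ∧
        (u : ℝ) ≤ Real.log X ^ U ∧
        ∃ e ∈ D, Real.log ((u * seq s t z.1 z.2 n : ℕ) : ℝ) ^ T < (e : ℝ) ∧ e ∣ u * seq s t z.1 z.2 n)).card : ℝ) ≤
        (X : ℝ) ^ 2 / Real.log X ^ A := by
  have hst2 : (2 : ℝ) ≤ (s + t : ℕ) := by exact_mod_cast (by omega : 2 ≤ s + t)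
  have hlst : 0 ≤ Real.log ((s + t : ℕ) : ℝ) := Real.log_nonneg (by linarith)
  obtain ⟨h, hh⟩ : ∃ h, h = 3 + 4 * κ * Real.log ((s + t : ℕ) : ℝ) := ⟨_, rfl⟩
  have hh3 : 3 ≤ h := by rw [hh]; have := mul_nonneg hκ0 hlst; linarith
  obtain ⟨B, hB⟩ : ∃ B, B = A + 2 * U + 3 := ⟨_, rfl⟩
  refine ⟨4 * B, fun T hT => ?_⟩
  obtain ⟨X₁, hX₁⟩ := hD.small (1 / 4 / h) (by positivity)
  obtain ⟨X₂, hX₂⟩ := ev_log_rpow (A + U + 2) 1 (1 / 4) (by norm_num)
  obtain ⟨X₃, hX₃⟩ := exists_nat_ge (Real.exp (39 * (4 * κ + 3) + 10))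
  obtain ⟨X₄, hX₄⟩ := ev_log_rpow U 1 1 (by norm_num)
  refine ⟨X₁ + X₂ + X₃ + X₄ + (s + t) ^ 2 + 1, fun X hX => ?_⟩
  have hX1 : 1 ≤ X := by omega
  have hXr1 : (1 : ℝ) ≤ X := by exact_mod_cast hX1
  have hX0 : (0 : ℝ) < X := by linarith
  obtain ⟨L, hL⟩ : ∃ L, L = Real.log X := ⟨_, rfl⟩
  have hLb : 39 * (4 * κ + 3) + 10 ≤ L := by
    rw [hL, Real.le_log_iff_exp_le hX0]
    exact hX₃.trans (by exact_mod_cast (by omega : X₃ ≤ X))
  have hL1 : 1 ≤ L := by linarith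
  have hL0 : 0 < L := by linarith
  have hUX : L ^ U ≤ X := by
    have := hX₄ X (by omega)
    rwa [one_mul, ← hL, Real.rpow_one] at this
  rw [← hL]
  have hsq : √L ≤ L / 2 := by
    have h2 : 2 ≤ √L := Real.le_sqrt_of_sq_le (by linarith)
    calc √L = √L * 2 / 2 := by ring
      _ ≤ √L * √L / 2 := by
          apply div_le_div_of_nonneg_right _ (by norm_num)
          exact mul_le_mul_of_nonneg_left h2 (Real.sqrt_nonneg _)
      _ = L / 2 := by rw [Real.mul_self_sqrt hL0.le]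
  have hsq1 : 1 ≤ √L := Real.one_le_sqrt.2 hL1
  obtain ⟨G, hG⟩ : ∃ G : ℝ, G = L ^ (2 * B) := ⟨_, rfl⟩
  have hG0 : 0 < G := by rw [hG]; positivity
  have hGT : G ≤ (L / 2) ^ T := by
    calc G = (√L ^ 2) ^ (2 * B) := by rw [Real.sq_sqrt hL0.le, hG]
      _ = √L ^ (4 * B) := by rw [← pow_mul]; congr 1; ring
      _ ≤ √L ^ T := pow_le_pow_right₀ hsq1 hT
      _ ≤ (L / 2) ^ T := pow_le_pow_left₀ (Real.sqrt_nonneg _) hsq T
  obtain ⟨K, hK⟩ : ∃ K, K = ⌊2 + 4 * (κ * L)⌋₊ := ⟨_, rfl⟩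
  obtain ⟨I, hI⟩ : ∃ I, I = range (K + 1) ×ˢ Icc 1 ⌊L ^ U⌋₊ := ⟨_, rfl⟩
  obtain ⟨H, hH⟩ : ∃ H, H = ⌊(X : ℝ) ^ h⌋₊ := ⟨_, rfl⟩
  have hkK : ∀ k : ℕ, k < K + 1 → (k : ℝ) ≤ 2 + 4 * (κ * L) := by
    intro k hk
    have : k ≤ ⌊2 + 4 * (κ * L)⌋₊ := by rw [← hK]; omega
    exact (Nat.le_floor_iff (by positivity)).1 this
  obtain ⟨S, hS⟩ : ∃ S, S = (Icc 1 X ×ˢ Icc 1 X).filter (fun z : ℕ × ℕ => ∃ i ∈ I, ∃ e ∈ D, G < (e : ℝ) ∧
      e ∣ i.2 * seq s t z.1 z.2 i.1) := ⟨_, rfl⟩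
  have hmain : (S.card : ℝ) ≤ I.card * (L ^ U * (13 * ((X : ℝ) ^ 2 / G ^ (1 / 2 : ℝ))) +
      (X : ℝ) * (((Icc 1 H).filter (fun e => e ∈ D)).card : ℝ)) := by
    rw [hS]
    apply div_count hD (Icc 1 X ×ˢ Icc 1 X) I (fun i z => i.2 * seq s t z.1 z.2 i.1) (L ^ U) ((X : ℝ) ^ 2) _ G H
      (by positivity) (by positivity) hX0.le hG0
    · rintro ⟨n, u⟩ hi e he
      rw [hI, mem_product, mem_range, mem_Icc] at hi
      obtain ⟨hk, hu1, hu2⟩ := hi
      simp only at hk hu1 hu2 ⊢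
      have hu3 : (u : ℝ) ≤ L ^ U := (Nat.le_floor_iff (by positivity)).1 hu2
      have h1 := form_div_u (seq s t 1 0 n) (seq s t 0 1 n) X e u (coprime_coeff hst n) he hu1
      have h2 : (((Icc 1 X ×ˢ Icc 1 X).filter (fun z : ℕ × ℕ => e ∣ u * seq s t z.1 z.2 n)).card : ℝ) ≤
          u * ((X : ℝ) ^ 2 / e) + X := by
        refine le_trans (Nat.cast_le.2 (card_le_card ?_)) h1
        intro z hz
        rw [mem_filter] at hz ⊢
        rw [seq_lin s t z.1 z.2 n] at hz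
        exact hz
      refine h2.trans ?_
      have h3 := mul_le_mul_of_nonneg_right hu3 (show 0 ≤ (X : ℝ) ^ 2 / e by positivity)
      linarith
    · rintro ⟨n, u⟩ hi z hz
      rw [hI, mem_product, mem_range, mem_Icc] at hi
      rw [mem_product, mem_Icc, mem_Icc] at hz
      obtain ⟨hk, hu1, hu2⟩ := hi
      simp only at hk hu1 hu2 ⊢
      have hu3 : (u : ℝ) ≤ L ^ U := (Nat.le_floor_iff (by positivity)).1 hu2
      have hp := (seq_lower (t := t) hs 1 z.1 z.2 hz.1.1 hz.2.1 n).1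
      refine ⟨Nat.mul_pos hu1 hp, ?_⟩
      rw [hH]
      apply Nat.le_floor
      have h1 : ((seq s t z.1 z.2 n : ℕ) : ℝ) ≤ ((s + t : ℕ) : ℝ) ^ n * X := by
        exact_mod_cast (seq_upper hs ht X z.1 z.2 hz.1.2 hz.2.2 n).1
      have h2 : ((s + t : ℕ) : ℝ) ^ n ≤ (X : ℝ) ^ (h - 2) := by
        have h3 : ((s + t : ℕ) : ℝ) ^ n ≤ ((s + t : ℕ) : ℝ) ^ (2 + 4 * (κ * L)) := by
          rw [← Real.rpow_natCast]
          exact Real.rpow_le_rpow_of_exponent_le (by linarith) (hkK n hk)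
        refine h3.trans ?_
        rw [Real.rpow_add (by linarith)]
        have h4 : ((s + t : ℕ) : ℝ) ^ (2 : ℝ) ≤ (X : ℝ) ^ (1 : ℝ) := by
          rw [Real.rpow_two, Real.rpow_one]
          exact_mod_cast (by omega : (s + t) ^ 2 ≤ X)
        have h5 : ((s + t : ℕ) : ℝ) ^ (4 * (κ * L)) = (X : ℝ) ^ (4 * κ * Real.log ((s + t : ℕ) : ℝ)) := by
          rw [Real.rpow_def_of_pos (by linarith), Real.rpow_def_of_pos hX0, ← hL]
          congr 1
          ring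
        rw [h5]
        calc ((s + t : ℕ) : ℝ) ^ (2 : ℝ) * (X : ℝ) ^ (4 * κ * Real.log ((s + t : ℕ) : ℝ)) ≤
              (X : ℝ) ^ (1 : ℝ) * (X : ℝ) ^ (4 * κ * Real.log ((s + t : ℕ) : ℝ)) :=
              mul_le_mul_of_nonneg_right h4 (by positivity)
          _ = (X : ℝ) ^ (h - 2) := by
              rw [← Real.rpow_add hX0, hh]
              congr 1
              ring
      push_cast
      calc (u : ℝ) * (seq s t z.1 z.2 n : ℕ) ≤ X * ((X : ℝ) ^ (h - 2) * X) := by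
            apply mul_le_mul (hu3.trans hUX) (h1.trans _) (Nat.cast_nonneg _) hX0.le
            exact mul_le_mul_of_nonneg_right h2 hX0.le
        _ = (X : ℝ) ^ h := by
            have e1 : (X : ℝ) * ((X : ℝ) ^ (h - 2) * X) = (X : ℝ) ^ (h - 2) * (X : ℝ) ^ (2 : ℝ) := by
              rw [Real.rpow_two]; ring
            rw [e1, ← Real.rpow_add hX0]
            congr 1
            ring
  have hHD : (((Icc 1 H).filter (fun e => e ∈ D)).card : ℝ) ≤ (X : ℝ) ^ (1 / 4 : ℝ) := by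
    have hXH : X ≤ H := by
      rw [hH]
      apply Nat.le_floor
      calc (X : ℝ) = (X : ℝ) ^ (1 : ℝ) := (Real.rpow_one _).symm
        _ ≤ (X : ℝ) ^ h := Real.rpow_le_rpow_of_exponent_le hXr1 (by linarith)
    refine (hX₁ H (by omega)).trans ?_
    have h1 : (H : ℝ) ≤ (X : ℝ) ^ h := by rw [hH]; exact Nat.floor_le (by positivity)
    calc (H : ℝ) ^ (1 / 4 / h) ≤ ((X : ℝ) ^ h) ^ (1 / 4 / h) := Real.rpow_le_rpow (Nat.cast_nonneg _) h1 (by positivity)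
      _ = (X : ℝ) ^ (1 / 4 : ℝ) := by
          rw [← Real.rpow_mul hX0.le]
          congr 1
          field_simp
  obtain ⟨Q, hQ⟩ : ∃ Q : ℕ, Q = ⌊(X : ℝ) ^ (1 / 2 : ℝ)⌋₊ := ⟨_, rfl⟩
  have hQr : (Q : ℝ) ≤ (X : ℝ) ^ (1 / 2 : ℝ) := by rw [hQ]; exact Nat.floor_le (by positivity)
  have hsub : (Icc 1 X ×ˢ Icc 1 X).filter (fun z : ℕ × ℕ => ∃ n u : ℕ, (seq s t z.1 z.2 n : ℝ) ≤ (X : ℝ) ^ κ ∧ 1 ≤ u ∧
        (u : ℝ) ≤ L ^ U ∧
        ∃ e ∈ D, Real.log ((u * seq s t z.1 z.2 n : ℕ) : ℝ) ^ T < (e : ℝ) ∧ e ∣ u * seq s t z.1 z.2 n) ⊆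
      (Icc 1 Q ×ˢ Icc 1 X ∪ Icc 1 X ×ˢ Icc 1 Q) ∪ S := by
    intro z hz
    rw [mem_filter] at hz
    obtain ⟨hz1, n, u, hk, hu1, hu2, e, heD, he1, he2⟩ := hz
    have hz1' := hz1
    rw [mem_product, mem_Icc, mem_Icc] at hz1'
    rw [mem_union, mem_union]
    by_cases h1Q : z.1 ≤ Q
    · left; left
      rw [mem_product, mem_Icc, mem_Icc]
      exact ⟨⟨hz1'.1.1, h1Q⟩, hz1'.2⟩
    by_cases h2Q : z.2 ≤ Q
    · left; right
      rw [mem_product, mem_Icc, mem_Icc]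
      exact ⟨hz1'.1, hz1'.2.1, h2Q⟩
    right
    have hlow := (seq_lower (t := t) hs (Q + 1) z.1 z.2 (by omega) (by omega) n).1
    rw [hS, mem_filter]
    refine ⟨hz1, (n, u), ?_, e, heD, ?_, he2⟩
    · rw [hI, mem_product, mem_range, mem_Icc]
      simp only
      have h11 : n ≤ K := by
        rw [hK]
        apply Nat.le_floor
        have h12 : (seq s t 0 1 n : ℝ) ≤ (X : ℝ) ^ κ := by
          refine le_trans ?_ hk
          rw [seq_lin s t z.1 z.2 n]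
          have h14 : seq s t 0 1 n ≤ seq s t 0 1 n * z.2 := Nat.le_mul_of_pos_right _ hz1'.2.1
          exact_mod_cast (by omega : seq s t 0 1 n ≤ seq s t 1 0 n * z.1 + seq s t 0 1 n * z.2)
        have h15 := index_le hs ht n ((X : ℝ) ^ κ) (Real.one_le_rpow hXr1 hκ0) h12
        rw [Real.log_rpow hX0, ← hL] at h15
        exact h15
      exact ⟨by omega, hu1, Nat.le_floor hu2⟩
    · refine lt_of_le_of_lt ?_ he1
      refine hGT.trans (pow_le_pow_left₀ (by positivity) ?_ T)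
      have h1 : (X : ℝ) ^ (1 / 2 : ℝ) ≤ (Q + 1 : ℕ) := by
        rw [hQ]
        push_cast
        exact (Nat.lt_floor_add_one _).le
      have h6 : (X : ℝ) ^ (1 / 2 : ℝ) ≤ ((u * seq s t z.1 z.2 n : ℕ) : ℝ) := by
        refine h1.trans ?_
        exact_mod_cast hlow.trans (Nat.le_mul_of_pos_left _ hu1)
      have h7 := Real.log_le_log (by positivity) h6
      rw [Real.log_rpow hX0, ← hL] at h7
      linarith
  have hcard : (((Icc 1 X ×ˢ Icc 1 X).filter (fun z : ℕ × ℕ => ∃ n u : ℕ, (seq s t z.1 z.2 n : ℝ) ≤ (X : ℝ) ^ κ ∧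
        1 ≤ u ∧ (u : ℝ) ≤ L ^ U ∧
        ∃ e ∈ D, Real.log ((u * seq s t z.1 z.2 n : ℕ) : ℝ) ^ T < (e : ℝ) ∧ e ∣ u * seq s t z.1 z.2 n)).card : ℝ) ≤
      2 * (Q * X) + S.card := by
    have h1 := (card_le_card hsub).trans ((card_union_le _ _).trans (Nat.add_le_add_right (card_union_le _ _) _))
    rw [card_product, card_product, Nat.card_Icc, Nat.card_Icc, Nat.add_sub_cancel, Nat.add_sub_cancel] at h1
    have h2 : (((Icc 1 X ×ˢ Icc 1 X).filter (fun z : ℕ × ℕ => ∃ n u : ℕ, (seq s t z.1 z.2 n : ℝ) ≤ (X : ℝ) ^ κ ∧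
        1 ≤ u ∧ (u : ℝ) ≤ L ^ U ∧
        ∃ e ∈ D, Real.log ((u * seq s t z.1 z.2 n : ℕ) : ℝ) ^ T < (e : ℝ) ∧
          e ∣ u * seq s t z.1 z.2 n)).card : ℝ) ≤ ((Q * X + X * Q + S.card : ℕ) : ℝ) := by exact_mod_cast h1
    refine h2.trans (le_of_eq ?_)
    push_cast
    ring
  refine hcard.trans ?_
  have hIc : (I.card : ℝ) ≤ (4 * κ + 3) * L * L ^ U := by
    rw [hI, card_product, card_range, Nat.card_Icc, Nat.add_sub_cancel]
    push_cast
    have h1 : (K : ℝ) ≤ 2 + 4 * (κ * L) := by rw [hK]; exact Nat.floor_le (by positivity)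
    have h2 : ((⌊L ^ U⌋₊ : ℕ) : ℝ) ≤ L ^ U := Nat.floor_le (by positivity)
    apply mul_le_mul _ h2 (Nat.cast_nonneg _) (by positivity)
    linarith
  have hG2 : G ^ (1 / 2 : ℝ) = L ^ B := by
    rw [hG, ← Real.rpow_natCast, ← Real.rpow_natCast, ← Real.rpow_mul hL0.le]
    congr 1
    push_cast
    ring
  have hLA : 0 < L ^ A := by positivity
  have hX2 : (X : ℝ) ^ (7 / 4 : ℝ) * L ^ (A + U + 2) ≤ (X : ℝ) ^ 2 := by
    have h1 := hX₂ X (by omega)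
    rw [one_mul, ← hL] at h1
    calc (X : ℝ) ^ (7 / 4 : ℝ) * L ^ (A + U + 2) ≤ (X : ℝ) ^ (7 / 4 : ℝ) * (X : ℝ) ^ (1 / 4 : ℝ) :=
          mul_le_mul_of_nonneg_left h1 (by positivity)
      _ = (X : ℝ) ^ (2 : ℝ) := by
          rw [← Real.rpow_add hX0]
          norm_num
      _ = (X : ℝ) ^ 2 := Real.rpow_two _
  have b1 : 2 * ((Q : ℝ) * X) * L ^ A ≤ (X : ℝ) ^ 2 / 3 := by
    have h1 : (Q : ℝ) * X ≤ (X : ℝ) ^ (7 / 4 : ℝ) := by
      calc (Q : ℝ) * X ≤ (X : ℝ) ^ (1 / 2 : ℝ) * (X : ℝ) ^ (1 : ℝ) := by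
            rw [Real.rpow_one]
            exact mul_le_mul_of_nonneg_right hQr hX0.le
        _ = (X : ℝ) ^ (3 / 2 : ℝ) := by
            rw [← Real.rpow_add hX0]
            norm_num
        _ ≤ (X : ℝ) ^ (7 / 4 : ℝ) := Real.rpow_le_rpow_of_exponent_le hXr1 (by norm_num)
    have h2 : (X : ℝ) ^ (7 / 4 : ℝ) * L ^ A * 6 ≤ (X : ℝ) ^ 2 := by
      calc (X : ℝ) ^ (7 / 4 : ℝ) * L ^ A * 6 ≤ (X : ℝ) ^ (7 / 4 : ℝ) * L ^ A * L ^ (U + 2) := by
            apply mul_le_mul_of_nonneg_left _ (by positivity)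
            calc (6 : ℝ) ≤ L := by linarith
              _ ≤ L ^ (U + 2) := le_self_pow₀ hL1 (by omega)
        _ = (X : ℝ) ^ (7 / 4 : ℝ) * L ^ (A + U + 2) := by rw [mul_assoc, ← pow_add]; congr 2
        _ ≤ (X : ℝ) ^ 2 := hX2
    have h3 := mul_le_mul_of_nonneg_right h1 hLA.le
    linarith
  have b2 : (I.card : ℝ) * ((X : ℝ) * (((Icc 1 H).filter (fun e => e ∈ D)).card : ℝ)) * L ^ A ≤ (X : ℝ) ^ 2 / 3 := by
    have h1 : (X : ℝ) * (((Icc 1 H).filter (fun e => e ∈ D)).card : ℝ) ≤ (X : ℝ) ^ (7 / 4 : ℝ) := by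
      calc (X : ℝ) * (((Icc 1 H).filter (fun e => e ∈ D)).card : ℝ)
          ≤ (X : ℝ) ^ (1 : ℝ) * (X : ℝ) ^ (1 / 4 : ℝ) := by
            rw [Real.rpow_one]
            exact mul_le_mul_of_nonneg_left hHD hX0.le
        _ = (X : ℝ) ^ (5 / 4 : ℝ) := by
            rw [← Real.rpow_add hX0]
            norm_num
        _ ≤ (X : ℝ) ^ (7 / 4 : ℝ) := Real.rpow_le_rpow_of_exponent_le hXr1 (by norm_num)
    have h2 : (I.card : ℝ) * ((X : ℝ) * (((Icc 1 H).filter (fun e => e ∈ D)).card : ℝ)) * L ^ A * 3 ≤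
        (X : ℝ) ^ 2 := by
      calc (I.card : ℝ) * ((X : ℝ) * (((Icc 1 H).filter (fun e => e ∈ D)).card : ℝ)) * L ^ A * 3
          ≤ ((4 * κ + 3) * L * L ^ U) * ((X : ℝ) ^ (7 / 4 : ℝ)) * L ^ A * 3 := by
            apply mul_le_mul_of_nonneg_right _ (by norm_num)
            apply mul_le_mul_of_nonneg_right _ hLA.le
            exact mul_le_mul hIc h1 (by positivity) (by positivity)
        _ = (3 * (4 * κ + 3)) * (L * (L ^ U * L ^ A)) * (X : ℝ) ^ (7 / 4 : ℝ) := by ring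
        _ ≤ L * (L * (L ^ U * L ^ A)) * (X : ℝ) ^ (7 / 4 : ℝ) := by
            apply mul_le_mul_of_nonneg_right _ (by positivity)
            apply mul_le_mul_of_nonneg_right _ (by positivity)
            linarith
        _ = (X : ℝ) ^ (7 / 4 : ℝ) * L ^ (A + U + 2) := by ring
        _ ≤ (X : ℝ) ^ 2 := hX2
    linarith
  have b3 : (I.card : ℝ) * (L ^ U * (13 * ((X : ℝ) ^ 2 / G ^ (1 / 2 : ℝ)))) * L ^ A ≤ (X : ℝ) ^ 2 / 3 := by
    rw [hG2]
    have hLB : 0 < L ^ B := by positivity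
    have h2 : (I.card : ℝ) * (L ^ U * (13 * ((X : ℝ) ^ 2 / L ^ B))) * L ^ A * 3 ≤ (X : ℝ) ^ 2 := by
      calc (I.card : ℝ) * (L ^ U * (13 * ((X : ℝ) ^ 2 / L ^ B))) * L ^ A * 3
          ≤ ((4 * κ + 3) * L * L ^ U) * (L ^ U * (13 * ((X : ℝ) ^ 2 / L ^ B))) * L ^ A * 3 := by
            apply mul_le_mul_of_nonneg_right _ (by norm_num)
            apply mul_le_mul_of_nonneg_right _ hLA.le
            exact mul_le_mul_of_nonneg_right hIc (by positivity)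
        _ = (39 * (4 * κ + 3)) * (L * (L ^ U * (L ^ U * L ^ A))) * (X : ℝ) ^ 2 / L ^ B := by ring
        _ ≤ (X : ℝ) ^ 2 := by
            rw [div_le_iff₀ hLB]
            calc (39 * (4 * κ + 3)) * (L * (L ^ U * (L ^ U * L ^ A))) * (X : ℝ) ^ 2 ≤
                  L * (L * (L ^ U * (L ^ U * L ^ A))) * (X : ℝ) ^ 2 := by
                  apply mul_le_mul_of_nonneg_right _ (by positivity)
                  apply mul_le_mul_of_nonneg_right _ (by positivity)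
                  linarith
              _ = (X : ℝ) ^ 2 * L ^ (A + 2 * U + 2) := by ring
              _ ≤ (X : ℝ) ^ 2 * L ^ B := by
                  apply mul_le_mul_of_nonneg_left _ (by positivity)
                  exact pow_le_pow_right₀ hL1 (by omega)
    linarith
  rw [le_div_iff₀ hLA]
  have h9 := mul_le_mul_of_nonneg_right hmain hLA.le
  nlinarith

end Pool.Agent.Run7.h496.PS
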