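import Pool.Agent.Run7.h496.BK.TrajDiv
import Pool.Agent.Run7.h496.BK.Base

/-! Linear equations in three primes: the coefficients along trajectories of the `q x + c` maps. -/

set_option autoImplicit false

namespace Pool.Agent.Run7.h496.BK

open Finset Topology
open Pool.Agent.Run7.h496.PS (Sparse Thin traj_div trajectories)
open Pool.Agent.Y883.T3 (ev_log_rpow)
open _root_.Run7.h469.CT (step)

/-- the exponent of the exceptional set is continuous -/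
theorem exponent_near (q : ℕ) (hq : 1 ≤ q) (ϑ κ : ℝ) (h : ϑ + κ * (Real.log (1 + (q : ℝ) ^ ϑ) - ϑ * Real.log 2) < 1) :
    ∃ η : ℝ, 0 < η ∧ ϑ + η + κ * (Real.log (1 + (q : ℝ) ^ (ϑ + η)) - (ϑ + η) * Real.log 2) < 1 := by
  have hq0 : (0 : ℝ) < q := by exact_mod_cast hq
  have hcont : ContinuousAt (fun x : ℝ => x + κ * (Real.log (1 + (q : ℝ) ^ x) - x * Real.log 2)) ϑ := by
    apply ContinuousAt.add continuousAt_id
    apply ContinuousAt.mul continuousAt_const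
    apply ContinuousAt.sub _ (continuousAt_id.mul continuousAt_const)
    apply ContinuousAt.log
    · apply ContinuousAt.add continuousAt_const
      exact ContinuousAt.rpow continuousAt_const continuousAt_id (Or.inl hq0.ne')
    · positivity
  have h2 := hcont.eventually_lt_const h
  have h3 : ∀ᶠ x : ℝ in 𝓝[>] ϑ, x + κ * (Real.log (1 + (q : ℝ) ^ x) - x * Real.log 2) < 1 :=
    h2.filter_mono nhdsWithin_le_nhds
  obtain ⟨x, h5, h6⟩ := (h3.and self_mem_nhdsWithin).exists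
  have h6' : ϑ < x := h6
  refine ⟨x - ϑ, by linarith, ?_⟩
  have e : ϑ + (x - ϑ) = x := by ring
  rw [e]
  exact h5

open Classical in
/-- **Coefficients along trajectories.** -/
theorem traj {q c : ℕ} (hq : Odd q) (hc : Odd c) (hcq : Nat.Coprime c q) (θ κ : ℝ) (hθ : 1 < θ)
    (hκ0 : 0 ≤ κ) (hκ2 : κ * Real.log 2 < 1)
    (hκ : 3 / 2 < θ ∨ 2 - θ + κ * (Real.log (1 + (q : ℝ) ^ (2 - θ)) - (2 - θ) * Real.log 2) < 1) (A T U : ℕ) :
    ∃ X₀ : ℕ, ∀ X : ℕ, X₀ ≤ X →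
      (((Icc 1 X).filter (fun m => ∃ k u : ℕ, (k : ℝ) ≤ κ * Real.log X ∧ 1 ≤ u ∧ (u : ℝ) ≤ Real.log X ^ U ∧
        ¬ Solvable θ T (u * (step q c)^[k] m))).card : ℝ) ≤ X / Real.log X ^ A := by
  obtain ⟨D, hD, hbase⟩ := base
  obtain ⟨T₀, hT₀⟩ := traj_div hD hq hc hcq κ hκ0 hκ2 (A + 1) U
  obtain ⟨X₁, hX₁⟩ := hT₀ (max T T₀) (le_max_right _ _)
  -- the exceptional set and the exponents
  obtain ⟨ϑ, β, E, hϑ0, hϑ1, hβ, hβ1, hE, hsol⟩ : ∃ (ϑ β : ℝ) (E : ℕ → Prop), 0 ≤ ϑ ∧ ϑ < 1 ∧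
      β = ϑ + κ * (Real.log (1 + (q : ℝ) ^ ϑ) - ϑ * Real.log 2) ∧ β < 1 ∧ Sparse ϑ E ∧
      ∀ n : ℕ, ¬ E n → (∀ e ∈ D, Real.log (n : ℝ) ^ (max T T₀) < (e : ℝ) → ¬ e ∣ n) → Solvable θ T n := by
    rcases lt_or_ge (3 / 2) θ with h | h
    · obtain ⟨E, h1, -, h3⟩ := hbase θ hθ 1 one_pos T (max T T₀) (le_max_left _ _)
      refine ⟨0, _, E, le_rfl, by norm_num, rfl, ?_, h1 h, h3⟩
      rw [Real.rpow_zero]
      norm_num
      exact hκ2
    · have hκ' : 2 - θ + κ * (Real.log (1 + (q : ℝ) ^ (2 - θ)) - (2 - θ) * Real.log 2) < 1 := by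
        rcases hκ with h1 | h1
        · exact absurd h1 (not_lt.2 h)
        · exact h1
      obtain ⟨η, hη, hη1⟩ := exponent_near q hq.pos (2 - θ) κ hκ'
      obtain ⟨E, -, h2, h3⟩ := hbase θ hθ (min η ((θ - 1) / 2)) (lt_min hη (by linarith)) T (max T T₀) (le_max_left _ _)
      -- the smaller `η` also works, by monotonicity of the exponent in the exceptional set
      by_cases hηθ : η ≤ (θ - 1) / 2
      · rw [min_eq_left hηθ] at h2
        exact ⟨2 - θ + η, _, E, by linarith, by linarith, rfl, hη1, h2 h, h3⟩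
      · -- use the bound with the exponent `2 - θ + (θ - 1) / 2` only through a continuity argument again
        push Not at hηθ
        rw [min_eq_right hηθ.le] at h2
        refine ⟨2 - θ + (θ - 1) / 2, _, E, by linarith, by linarith, rfl, ?_, h2 h, h3⟩
        -- the exponent is monotone
        have hmono : ∀ x y : ℝ, x ≤ y → x + κ * (Real.log (1 + (q : ℝ) ^ x) - x * Real.log 2) ≤
            y + κ * (Real.log (1 + (q : ℝ) ^ y) - y * Real.log 2) := by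
          intro x y hxy
          have hq1 : (1 : ℝ) ≤ q := by exact_mod_cast hq.pos
          have h5 : (q : ℝ) ^ x ≤ (q : ℝ) ^ y := Real.rpow_le_rpow_of_exponent_le hq1 hxy
          have h6 : Real.log (1 + (q : ℝ) ^ x) ≤ Real.log (1 + (q : ℝ) ^ y) :=
            Real.log_le_log (by positivity) (by linarith)
          have h7 := mul_le_mul_of_nonneg_left h6 hκ0
          have h8 : (y - x) * (κ * Real.log 2) ≤ (y - x) * 1 := mul_le_mul_of_nonneg_left hκ2.le (by linarith)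
          nlinarith
        exact lt_of_le_of_lt (hmono _ _ (by linarith)) hη1
  obtain ⟨η', hη', X₂, hX₂⟩ := trajectories (c := c) hq ϑ κ β ((1 - β) / 2) hϑ0 hϑ1 hκ0 hβ hβ1 (by linarith) hE
  obtain ⟨X₃, hX₃⟩ := ev_log_rpow U 1 η' hη'
  obtain ⟨X₄, hX₄⟩ := ev_log_rpow (A + 1) 1 ((1 - β) / 2) (by linarith)
  obtain ⟨X₅, hX₅⟩ := exists_nat_ge (Real.exp 2)
  refine ⟨X₁ + X₂ + X₃ + X₄ + X₅ + 1, fun X hX => ?_⟩
  have hX1 : 1 ≤ X := by omega
  have hX0 : (0 : ℝ) < X := by exact_mod_cast hX1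
  obtain ⟨L, hL⟩ : ∃ L, L = Real.log X := ⟨_, rfl⟩
  have hL2 : 2 ≤ L := by
    rw [hL, Real.le_log_iff_exp_le hX0]
    exact hX₅.trans (by exact_mod_cast (by omega : X₅ ≤ X))
  have hL0 : 0 < L := by linarith
  have h1 := hX₁ X (by omega)
  have h2 := hX₂ X (by omega)
  have h3 := hX₃ X (by omega)
  have h4 := hX₄ X (by omega)
  rw [one_mul] at h3 h4
  rw [← hL] at h1 h2 h3 h4 ⊢
  have hsub : (Icc 1 X).filter (fun m => ∃ k u : ℕ, (k : ℝ) ≤ κ * L ∧ 1 ≤ u ∧ (u : ℝ) ≤ L ^ U ∧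
        ¬ Solvable θ T (u * (step q c)^[k] m)) ⊆
      (Icc 1 X).filter (fun m => ∃ (k u N : ℕ) (w : ℤ), (k : ℝ) ≤ κ * L ∧ 1 ≤ u ∧
        (u : ℝ) ≤ (X : ℝ) ^ η' ∧ |(w : ℝ)| ≤ (X : ℝ) ^ η' ∧ 1 ≤ N ∧
        (N : ℤ) = u * ((step q c)^[k] m : ℕ) + w ∧ E N) ∪
      (Icc 1 X).filter (fun m => ∃ k u : ℕ, (k : ℝ) ≤ κ * L ∧ 1 ≤ u ∧ (u : ℝ) ≤ L ^ U ∧
        ∃ e ∈ D, Real.log ((u * (step q c)^[k] m : ℕ) : ℝ) ^ (max T T₀) < (e : ℝ) ∧ e ∣ u * (step q c)^[k] m) := by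
    intro m hm
    rw [mem_filter] at hm
    obtain ⟨hm1, k, u, hk, hu1, hu2, hns⟩ := hm
    rw [mem_union, mem_filter, mem_filter]
    by_cases hEm : E (u * (step q c)^[k] m)
    · left
      have hp : 1 ≤ (step q c)^[k] m :=
        _root_.Run7.h469.CT.iter_pos hq.pos hc.pos k (mem_Icc.1 hm1).1
      refine ⟨hm1, k, u, u * (step q c)^[k] m, 0, hk, hu1, hu2.trans h3, ?_, Nat.mul_pos hu1 hp, ?_, hEm⟩
      · simp
        positivity
      · push_cast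
        ring
    · right
      refine ⟨hm1, k, u, hk, hu1, hu2, ?_⟩
      by_contra hcon
      push Not at hcon
      exact hns (hsol _ hEm hcon)
  have hcard : (((Icc 1 X).filter (fun m => ∃ k u : ℕ, (k : ℝ) ≤ κ * L ∧ 1 ≤ u ∧ (u : ℝ) ≤ L ^ U ∧
        ¬ Solvable θ T (u * (step q c)^[k] m))).card : ℝ) ≤ (X : ℝ) ^ (β + (1 - β) / 2) + X / L ^ (A + 1) := by
    refine le_trans ?_ (add_le_add h2 h1)
    exact_mod_cast (card_le_card hsub).trans (card_union_le _ _)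
  refine hcard.trans ?_
  have hLA : 0 < L ^ (A + 1) := by positivity
  have h5 : (X : ℝ) ^ (β + (1 - β) / 2) ≤ X / L ^ (A + 1) := by
    rw [le_div_iff₀ hLA]
    calc (X : ℝ) ^ (β + (1 - β) / 2) * L ^ (A + 1) ≤ (X : ℝ) ^ (β + (1 - β) / 2) * (X : ℝ) ^ ((1 - β) / 2) :=
          mul_le_mul_of_nonneg_left h4 (by positivity)
      _ = (X : ℝ) ^ (1 : ℝ) := by
          rw [← Real.rpow_add hX0]
          congr 1
          ring
      _ = X := Real.rpow_one _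
  have h6 : (X : ℝ) / L ^ A = L * (X / L ^ (A + 1)) := by
    rw [pow_succ]
    field_simp
  rw [h6]
  have h7 : 0 ≤ (X : ℝ) / L ^ (A + 1) := by positivity
  nlinarith

end Pool.Agent.Run7.h496.BK
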