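import Pool.Agent.Run7.h496.PS.Div

/-! Trajectories of the `q x + c` maps: large divisors in a thin set are rare, for all members at once. -/

set_option autoImplicit false

namespace Pool.Agent.Run7.h496.PS

open Finset
open _root_.Run7.h469.CT (step iter_pos)
open Pool.Agent.Y883.T3 (ev_log_rpow)

theorem step_lower (q c n : ℕ) (hq : 1 ≤ q) (hc : 1 ≤ c) : n ≤ 2 * step q c n := by
  unfold step
  split_ifs with h
  · omega
  · have h1 : n ≤ q * n := Nat.le_mul_of_pos_left n hq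
    omega

theorem iter_lower (q c : ℕ) (hq : 1 ≤ q) (hc : 1 ≤ c) : ∀ k n : ℕ, n ≤ 2 ^ k * (step q c)^[k] n
  | 0, n => by simp
  | k + 1, n => by
    rw [Function.iterate_succ_apply]
    have h1 := step_lower q c n hq hc
    have h2 := iter_lower q c hq hc k (step q c n)
    calc n ≤ 2 * step q c n := h1
      _ ≤ 2 * (2 ^ k * (step q c)^[k] (step q c n)) := Nat.mul_le_mul_left 2 h2
      _ = _ := by rw [pow_succ]; ring

theorem step_upper (q c n : ℕ) (hn : 1 ≤ n) (hqc : 1 ≤ q + c) : step q c n ≤ (q + c) * n := by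
  unfold step
  split_ifs with h
  · calc n / 2 ≤ n := Nat.div_le_self _ _
      _ ≤ (q + c) * n := Nat.le_mul_of_pos_left n hqc
  · have h1 : c ≤ c * n := Nat.le_mul_of_pos_right c hn
    calc (q * n + c) / 2 ≤ q * n + c := Nat.div_le_self _ _
      _ ≤ q * n + c * n := by omega
      _ = (q + c) * n := by ring

theorem iter_upper (q c : ℕ) (hq : 1 ≤ q) (hc : 1 ≤ c) : ∀ k n : ℕ, 1 ≤ n → (step q c)^[k] n ≤ (q + c) ^ k * n
  | 0, n, _ => by simp
  | k + 1, n, hn => by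
    rw [Function.iterate_succ_apply]
    have h1 := step_upper q c n hn (by omega)
    have h3 : 1 ≤ step q c n := by
      have := iter_pos (q := q) (c := c) hq hc 1 hn
      simpa using this
    calc (step q c)^[k] (step q c n) ≤ (q + c) ^ k * step q c n := iter_upper q c hq hc k _ h3
      _ ≤ (q + c) ^ k * ((q + c) * n) := Nat.mul_le_mul_left _ h1
      _ = _ := by rw [pow_succ]; ring

open Classical in
/-- **Trajectories and multiples of the members of a thin set.** -/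
theorem traj_div {D : Set ℕ} (hD : Thin D) {q c : ℕ} (hq : Odd q) (hc : Odd c) (hcq : Nat.Coprime c q) (κ : ℝ)
    (hκ0 : 0 ≤ κ) (hκ : κ * Real.log 2 < 1) (A U : ℕ) : ∃ T₀ : ℕ, ∀ T : ℕ, T₀ ≤ T → ∃ X₀ : ℕ, ∀ X : ℕ, X₀ ≤ X →
      (((Icc 1 X).filter (fun m => ∃ k u : ℕ, (k : ℝ) ≤ κ * Real.log X ∧ 1 ≤ u ∧ (u : ℝ) ≤ Real.log X ^ U ∧
        ∃ e ∈ D, Real.log ((u * (step q c)^[k] m : ℕ) : ℝ) ^ T < (e : ℝ) ∧ e ∣ u * (step q c)^[k] m)).card : ℝ) ≤
        X / Real.log X ^ A := by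
  have hq1 : 1 ≤ q := hq.pos
  have hc1 : 1 ≤ c := hc.pos
  have hl2 : 0 < Real.log 2 := Real.log_pos (by norm_num)
  obtain ⟨δ, hδ⟩ : ∃ δ, δ = (1 - κ * Real.log 2) / 2 := ⟨_, rfl⟩
  have hδ0 : 0 < δ := by rw [hδ]; linarith
  have hδ1 : δ ≤ 1 / 2 := by rw [hδ]; have := mul_nonneg hκ0 hl2.le; linarith
  have hqc2 : (2 : ℝ) ≤ (q + c : ℕ) := by exact_mod_cast (by omega : 2 ≤ q + c)
  obtain ⟨h, hh⟩ : ∃ h, h = 2 + κ * Real.log ((q + c : ℕ) : ℝ) := ⟨_, rfl⟩
  have hlqc : 0 ≤ Real.log ((q + c : ℕ) : ℝ) := Real.log_nonneg (by linarith)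
  have hh2 : 2 ≤ h := by rw [hh]; have := mul_nonneg hκ0 hlqc; linarith
  obtain ⟨B, hB⟩ : ∃ B, B = A + 2 * U + 3 := ⟨_, rfl⟩
  refine ⟨4 * B, fun T hT => ?_⟩
  obtain ⟨X₁, hX₁⟩ := hD.small (δ / h) (by positivity)
  obtain ⟨X₂, hX₂⟩ := ev_log_rpow (A + U + 2) 1 (δ / 2) (by positivity)
  obtain ⟨X₃, hX₃⟩ := exists_nat_ge (Real.exp (39 * (κ + 1) + 6 + (1 / δ) ^ 2))
  obtain ⟨X₄, hX₄⟩ := ev_log_rpow U 1 1 (by norm_num)
  refine ⟨X₁ + X₂ + X₃ + X₄ + 1, fun X hX => ?_⟩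
  have hX1 : 1 ≤ X := by omega
  have hXr1 : (1 : ℝ) ≤ X := by exact_mod_cast hX1
  have hX0 : (0 : ℝ) < X := by linarith
  obtain ⟨L, hL⟩ : ∃ L, L = Real.log X := ⟨_, rfl⟩
  have hLb : 39 * (κ + 1) + 6 + (1 / δ) ^ 2 ≤ L := by
    rw [hL, Real.le_log_iff_exp_le hX0]
    exact hX₃.trans (by exact_mod_cast (by omega : X₃ ≤ X))
  have hδ2 : 0 ≤ (1 / δ) ^ 2 := by positivity
  have hL1 : 1 ≤ L := by linarith
  have hL0 : 0 < L := by linarith
  have hUX : L ^ U ≤ X := by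
    have := hX₄ X (by omega)
    rwa [one_mul, ← hL, Real.rpow_one] at this
  rw [← hL]
  -- `δ L ≥ √L`
  have hsq : √L ≤ δ * L := by
    have h1 : (1 / δ) ^ 2 ≤ L := by linarith
    have h2 : 1 / δ ≤ √L := Real.le_sqrt_of_sq_le h1
    have h3 : 1 ≤ δ * √L := by
      rw [div_le_iff₀ hδ0] at h2
      linarith
    calc √L = 1 * √L := (one_mul _).symm
      _ ≤ (δ * √L) * √L := mul_le_mul_of_nonneg_right h3 (Real.sqrt_nonneg _)
      _ = δ * (√L * √L) := by ring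
      _ = δ * L := by rw [Real.mul_self_sqrt hL0.le]
  have hsq1 : 1 ≤ √L := Real.one_le_sqrt.2 hL1
  obtain ⟨G, hG⟩ : ∃ G : ℝ, G = L ^ (2 * B) := ⟨_, rfl⟩
  have hG0 : 0 < G := by rw [hG]; positivity
  have hGT : G ≤ (δ * L) ^ T := by
    calc G = (√L ^ 2) ^ (2 * B) := by rw [Real.sq_sqrt hL0.le, hG]
      _ = √L ^ (4 * B) := by rw [← pow_mul]; congr 1; ring
      _ ≤ √L ^ T := pow_le_pow_right₀ hsq1 hT
      _ ≤ (δ * L) ^ T := pow_le_pow_left₀ (Real.sqrt_nonneg _) hsq T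
  obtain ⟨K, hK⟩ : ∃ K, K = ⌊κ * L⌋₊ := ⟨_, rfl⟩
  obtain ⟨I, hI⟩ : ∃ I, I = range (K + 1) ×ˢ Icc 1 ⌊L ^ U⌋₊ := ⟨_, rfl⟩
  obtain ⟨H, hH⟩ : ∃ H, H = ⌊(X : ℝ) ^ h⌋₊ := ⟨_, rfl⟩
  have hpow : ∀ k : ℕ, (k : ℝ) ≤ κ * L → (2 : ℝ) ^ k ≤ (X : ℝ) ^ (1 - 2 * δ) := by
    intro k hk
    rw [← Real.rpow_natCast, Real.rpow_def_of_pos (by norm_num), Real.rpow_def_of_pos hX0, ← hL]
    apply Real.exp_le_exp.2
    have h1 := mul_le_mul_of_nonneg_left hk hl2.le
    have h2 : 1 - 2 * δ = κ * Real.log 2 := by rw [hδ]; ring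
    rw [h2]
    linarith
  have hkK : ∀ k : ℕ, k < K + 1 → (k : ℝ) ≤ κ * L := by
    intro k hk
    have : k ≤ ⌊κ * L⌋₊ := by rw [← hK]; omega
    exact (Nat.le_floor_iff (by positivity)).1 this
  obtain ⟨S, hS⟩ : ∃ S, S = (Icc 1 X).filter (fun m => ∃ i ∈ I, ∃ e ∈ D, G < (e : ℝ) ∧
      e ∣ i.2 * (step q c)^[i.1] m) := ⟨_, rfl⟩
  have hmain : (S.card : ℝ) ≤ I.card * (L ^ U * (13 * ((X : ℝ) / G ^ (1 / 2 : ℝ))) +
      (X : ℝ) ^ (1 - 2 * δ) * (((Icc 1 H).filter (fun e => e ∈ D)).card : ℝ)) := by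
    rw [hS]
    apply div_count hD (Icc 1 X) I (fun i m => i.2 * (step q c)^[i.1] m) (L ^ U) X _ G H (by positivity) hX0.le
      (by positivity) hG0
    · rintro ⟨k, u⟩ hi e he
      rw [hI, mem_product, mem_range, mem_Icc] at hi
      obtain ⟨hk, hu1, hu2⟩ := hi
      simp only at hk hu1 hu2 ⊢
      have hu3 : (u : ℝ) ≤ L ^ U := (Nat.le_floor_iff (by positivity)).1 hu2
      refine (div_all hq hc hcq X k e u he hu1).trans (add_le_add ?_ (hpow k (hkK k hk)))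
      exact mul_le_mul_of_nonneg_right hu3 (by positivity)
    · rintro ⟨k, u⟩ hi m hm
      rw [hI, mem_product, mem_range, mem_Icc] at hi
      rw [mem_Icc] at hm
      obtain ⟨hk, hu1, hu2⟩ := hi
      simp only at hk hu1 hu2 ⊢
      have hu3 : (u : ℝ) ≤ L ^ U := (Nat.le_floor_iff (by positivity)).1 hu2
      have hp := iter_pos (q := q) (c := c) hq1 hc1 k hm.1
      refine ⟨Nat.mul_pos hu1 hp, ?_⟩
      rw [hH]
      apply Nat.le_floor
      have h1 : (((step q c)^[k] m : ℕ) : ℝ) ≤ ((q + c : ℕ) : ℝ) ^ k * m := by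
        exact_mod_cast iter_upper q c hq1 hc1 k m hm.1
      have h2 : ((q + c : ℕ) : ℝ) ^ k ≤ (X : ℝ) ^ (h - 2) := by
        rw [← Real.rpow_natCast, Real.rpow_def_of_pos (by linarith), Real.rpow_def_of_pos hX0, ← hL]
        apply Real.exp_le_exp.2
        have h3 := mul_le_mul_of_nonneg_left (hkK k hk) hlqc
        rw [hh]
        linarith
      have h4 : (m : ℝ) ≤ X := by exact_mod_cast hm.2
      push_cast
      calc (u : ℝ) * ((step q c)^[k] m : ℕ) ≤ X * ((X : ℝ) ^ (h - 2) * X) := by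
            apply mul_le_mul (hu3.trans hUX) (h1.trans _) (Nat.cast_nonneg _) hX0.le
            exact mul_le_mul h2 h4 (Nat.cast_nonneg _) (by positivity)
        _ = (X : ℝ) ^ h := by
            have e1 : (X : ℝ) * ((X : ℝ) ^ (h - 2) * X) = (X : ℝ) ^ (h - 2) * (X : ℝ) ^ (2 : ℝ) := by
              rw [Real.rpow_two]; ring
            rw [e1, ← Real.rpow_add hX0]
            congr 1
            ring
  have hHD : (((Icc 1 H).filter (fun e => e ∈ D)).card : ℝ) ≤ (X : ℝ) ^ δ := by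
    have hXH : X ≤ H := by
      rw [hH]
      apply Nat.le_floor
      calc (X : ℝ) = (X : ℝ) ^ (1 : ℝ) := (Real.rpow_one _).symm
        _ ≤ (X : ℝ) ^ h := Real.rpow_le_rpow_of_exponent_le hXr1 (by linarith)
    refine (hX₁ H (by omega)).trans ?_
    have h1 : (H : ℝ) ≤ (X : ℝ) ^ h := by rw [hH]; exact Nat.floor_le (by positivity)
    calc (H : ℝ) ^ (δ / h) ≤ ((X : ℝ) ^ h) ^ (δ / h) := Real.rpow_le_rpow (Nat.cast_nonneg _) h1 (by positivity)
      _ = (X : ℝ) ^ δ := by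
          rw [← Real.rpow_mul hX0.le]
          congr 1
          field_simp
  obtain ⟨Q, hQ⟩ : ∃ Q : ℕ, Q = ⌊(X : ℝ) ^ (1 - δ)⌋₊ := ⟨_, rfl⟩
  have hQr : (Q : ℝ) ≤ (X : ℝ) ^ (1 - δ) := by rw [hQ]; exact Nat.floor_le (by positivity)
  have hsub : (Icc 1 X).filter (fun m => ∃ k u : ℕ, (k : ℝ) ≤ κ * L ∧ 1 ≤ u ∧ (u : ℝ) ≤ L ^ U ∧
        ∃ e ∈ D, Real.log ((u * (step q c)^[k] m : ℕ) : ℝ) ^ T < (e : ℝ) ∧ e ∣ u * (step q c)^[k] m) ⊆ Icc 1 Q ∪ S := by
    intro m hm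
    rw [mem_filter] at hm
    obtain ⟨hm1, k, u, hk, hu1, hu2, e, heD, he1, he2⟩ := hm
    have hm1' := hm1
    rw [mem_Icc] at hm1'
    rw [mem_union]
    by_cases hmQ : m ≤ Q
    · left
      rw [mem_Icc]
      exact ⟨hm1'.1, hmQ⟩
    right
    rw [hS, mem_filter]
    refine ⟨hm1, (k, u), ?_, e, heD, ?_, he2⟩
    · rw [hI, mem_product, mem_range, mem_Icc]
      simp only
      have : k ≤ K := by rw [hK]; exact Nat.le_floor hk
      exact ⟨by omega, hu1, Nat.le_floor hu2⟩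
    · refine lt_of_le_of_lt ?_ he1
      refine hGT.trans (pow_le_pow_left₀ (by positivity) ?_ T)
      -- the member is at least `X ^ δ`
      have h1 : (X : ℝ) ^ (1 - δ) ≤ m := by
        have := Nat.lt_of_floor_lt (a := (X : ℝ) ^ (1 - δ)) (n := m) (by rw [← hQ]; omega)
        exact this.le
      have h2 : (m : ℝ) ≤ 2 ^ k * (((step q c)^[k] m : ℕ) : ℝ) := by exact_mod_cast iter_lower q c hq1 hc1 k m
      have h3 := hpow k hk
      have h4 : (X : ℝ) ^ δ ≤ (((step q c)^[k] m : ℕ) : ℝ) := by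
        have h5 : (X : ℝ) ^ δ * (X : ℝ) ^ (1 - 2 * δ) ≤ (((step q c)^[k] m : ℕ) : ℝ) * (X : ℝ) ^ (1 - 2 * δ) := by
          rw [← Real.rpow_add hX0]
          calc (X : ℝ) ^ (δ + (1 - 2 * δ)) = (X : ℝ) ^ (1 - δ) := by congr 1; ring
            _ ≤ m := h1
            _ ≤ 2 ^ k * (((step q c)^[k] m : ℕ) : ℝ) := h2
            _ ≤ (X : ℝ) ^ (1 - 2 * δ) * (((step q c)^[k] m : ℕ) : ℝ) :=
                mul_le_mul_of_nonneg_right h3 (Nat.cast_nonneg _)
            _ = _ := mul_comm _ _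
        exact le_of_mul_le_mul_right h5 (by positivity)
      have h6 : (X : ℝ) ^ δ ≤ ((u * (step q c)^[k] m : ℕ) : ℝ) := by
        refine h4.trans ?_
        exact_mod_cast Nat.le_mul_of_pos_left _ hu1
      have h7 := Real.log_le_log (by positivity) h6
      rw [Real.log_rpow hX0, ← hL] at h7
      exact h7
  have hcard : (((Icc 1 X).filter (fun m => ∃ k u : ℕ, (k : ℝ) ≤ κ * L ∧ 1 ≤ u ∧ (u : ℝ) ≤ L ^ U ∧
        ∃ e ∈ D, Real.log ((u * (step q c)^[k] m : ℕ) : ℝ) ^ T < (e : ℝ) ∧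
          e ∣ u * (step q c)^[k] m)).card : ℝ) ≤ Q + S.card := by
    have h1 := (card_le_card hsub).trans (card_union_le _ _)
    rw [Nat.card_Icc, Nat.add_sub_cancel] at h1
    exact_mod_cast h1
  refine hcard.trans ?_
  -- the size of `I`
  have hIc : (I.card : ℝ) ≤ (κ + 1) * L * L ^ U := by
    rw [hI, card_product, card_range, Nat.card_Icc, Nat.add_sub_cancel]
    push_cast
    have h1 : (K : ℝ) ≤ κ * L := by rw [hK]; exact Nat.floor_le (by positivity)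
    have h2 : ((⌊L ^ U⌋₊ : ℕ) : ℝ) ≤ L ^ U := Nat.floor_le (by positivity)
    apply mul_le_mul _ h2 (Nat.cast_nonneg _) (by positivity)
    linarith
  have hG2 : G ^ (1 / 2 : ℝ) = L ^ B := by
    rw [hG, ← Real.rpow_natCast, ← Real.rpow_natCast, ← Real.rpow_mul hL0.le]
    congr 1
    push_cast
    ring
  have hLA : 0 < L ^ A := by positivity
  have hXA : ((X : ℝ) ^ (1 - δ / 2)) * L ^ (A + U + 2) ≤ X := by
    have h1 := hX₂ X (by omega)
    rw [one_mul, ← hL] at h1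
    calc ((X : ℝ) ^ (1 - δ / 2)) * L ^ (A + U + 2) ≤ (X : ℝ) ^ (1 - δ / 2) * (X : ℝ) ^ (δ / 2) :=
          mul_le_mul_of_nonneg_left h1 (by positivity)
      _ = (X : ℝ) ^ (1 : ℝ) := by
          rw [← Real.rpow_add hX0]
          congr 1
          ring
      _ = X := Real.rpow_one _
  have hsmall : (X : ℝ) ^ (1 - δ) ≤ (X : ℝ) ^ (1 - δ / 2) := Real.rpow_le_rpow_of_exponent_le hXr1 (by linarith)
  have b1 : (Q : ℝ) * L ^ A ≤ X / 3 := by
    have h1 : (X : ℝ) ^ (1 - δ) * L ^ A * 3 ≤ X := by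
      calc (X : ℝ) ^ (1 - δ) * L ^ A * 3 ≤ (X : ℝ) ^ (1 - δ / 2) * L ^ A * L ^ (U + 2) := by
            apply mul_le_mul _ _ (by norm_num) (by positivity)
            · exact mul_le_mul_of_nonneg_right hsmall hLA.le
            · calc (3 : ℝ) ≤ L := by linarith
                _ ≤ L ^ (U + 2) := le_self_pow₀ hL1 (by omega)
        _ = (X : ℝ) ^ (1 - δ / 2) * L ^ (A + U + 2) := by rw [mul_assoc, ← pow_add]; congr 2
        _ ≤ X := hXA
    have h2 := mul_le_mul_of_nonneg_right hQr hLA.le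
    linarith
  have b2 : (I.card : ℝ) * ((X : ℝ) ^ (1 - 2 * δ) * (((Icc 1 H).filter (fun e => e ∈ D)).card : ℝ)) * L ^ A ≤
      X / 3 := by
    have h1 : (X : ℝ) ^ (1 - 2 * δ) * (((Icc 1 H).filter (fun e => e ∈ D)).card : ℝ) ≤ (X : ℝ) ^ (1 - δ) := by
      calc (X : ℝ) ^ (1 - 2 * δ) * (((Icc 1 H).filter (fun e => e ∈ D)).card : ℝ)
          ≤ (X : ℝ) ^ (1 - 2 * δ) * (X : ℝ) ^ δ := mul_le_mul_of_nonneg_left hHD (by positivity)
        _ = (X : ℝ) ^ (1 - δ) := by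
            rw [← Real.rpow_add hX0]
            congr 1
            ring
    have h2 : (I.card : ℝ) * ((X : ℝ) ^ (1 - 2 * δ) * (((Icc 1 H).filter (fun e => e ∈ D)).card : ℝ)) * L ^ A * 3 ≤
        X := by
      calc (I.card : ℝ) * ((X : ℝ) ^ (1 - 2 * δ) * (((Icc 1 H).filter (fun e => e ∈ D)).card : ℝ)) * L ^ A * 3
          ≤ ((κ + 1) * L * L ^ U) * ((X : ℝ) ^ (1 - δ / 2)) * L ^ A * 3 := by
            apply mul_le_mul_of_nonneg_right _ (by norm_num)
            apply mul_le_mul_of_nonneg_right _ hLA.le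
            exact mul_le_mul hIc (h1.trans hsmall) (by positivity) (by positivity)
        _ = (3 * (κ + 1)) * (L * (L ^ U * L ^ A)) * (X : ℝ) ^ (1 - δ / 2) := by ring
        _ ≤ L * (L * (L ^ U * L ^ A)) * (X : ℝ) ^ (1 - δ / 2) := by
            apply mul_le_mul_of_nonneg_right _ (by positivity)
            apply mul_le_mul_of_nonneg_right _ (by positivity)
            linarith
        _ = (X : ℝ) ^ (1 - δ / 2) * L ^ (A + U + 2) := by ring
        _ ≤ X := hXA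
    linarith
  have b3 : (I.card : ℝ) * (L ^ U * (13 * ((X : ℝ) / G ^ (1 / 2 : ℝ)))) * L ^ A ≤ X / 3 := by
    rw [hG2]
    have hLB : 0 < L ^ B := by positivity
    have h2 : (I.card : ℝ) * (L ^ U * (13 * ((X : ℝ) / L ^ B))) * L ^ A * 3 ≤ X := by
      calc (I.card : ℝ) * (L ^ U * (13 * ((X : ℝ) / L ^ B))) * L ^ A * 3
          ≤ ((κ + 1) * L * L ^ U) * (L ^ U * (13 * ((X : ℝ) / L ^ B))) * L ^ A * 3 := by
            apply mul_le_mul_of_nonneg_right _ (by norm_num)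
            apply mul_le_mul_of_nonneg_right _ hLA.le
            exact mul_le_mul_of_nonneg_right hIc (by positivity)
        _ = (39 * (κ + 1)) * (L * (L ^ U * (L ^ U * L ^ A))) * X / L ^ B := by ring
        _ ≤ X := by
            rw [div_le_iff₀ hLB]
            calc (39 * (κ + 1)) * (L * (L ^ U * (L ^ U * L ^ A))) * X ≤ L * (L * (L ^ U * (L ^ U * L ^ A))) * X := by
                  apply mul_le_mul_of_nonneg_right _ hX0.le
                  apply mul_le_mul_of_nonneg_right _ (by positivity)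
                  linarith
              _ = X * L ^ (A + 2 * U + 2) := by ring
              _ ≤ X * L ^ B := by
                  apply mul_le_mul_of_nonneg_left _ hX0.le
                  exact pow_le_pow_right₀ hL1 (by omega)
    linarith
  rw [le_div_iff₀ hLA]
  have h9 := mul_le_mul_of_nonneg_right hmain hLA.le
  nlinarith

end Pool.Agent.Run7.h496.PS
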